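import Pool.Agent.Helper98.LM.St2

/-!
# Project LM (MP_d57c14_nt), module NFI: final count of the second theorem
-/

set_option autoImplicit false

noncomputable section

namespace Pool.Agent.Helper22.LM

open Finset Filter Asymptotics
open Pool.Agent.Helper98.LM
open Pool.Agent.Helper15.AB (StMT)
open Pool.Agent.Helper30.LQ (StMR4)
open Pool.Agent.Helper30.LK (StMR3)

private lemma ev_real (P : ℝ) (C₀ : ℝ) : ∀ᶠ x : ℝ in atTop, 2 * P * (C₀ * Real.log x + 2) ≤ x ^ (1 / 2 : ℝ) := by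
  have a := (isLittleO_log_rpow_atTop (r := 1 / 2) (by norm_num)).const_mul_left C₀
  have b : (fun _ : ℝ => (2 : ℝ)) =o[atTop] fun x : ℝ => x ^ (1 / 2 : ℝ) :=
    isLittleO_const_left.2 (Or.inr (tendsto_norm_atTop_atTop.comp (tendsto_rpow_atTop (by norm_num))))
  have h := (a.add b).const_mul_left (2 * P)
  have h2 := h.def (c := 1) one_pos
  filter_upwards [h2, eventually_ge_atTop (0 : ℝ)] with x hx h0
  rw [one_mul, Real.norm_eq_abs, Real.norm_eq_abs, abs_of_nonneg (Real.rpow_nonneg h0 _)] at hx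
  exact le_trans (le_abs_self _) hx

/-- the size of `w` -/
private lemma w_big {P N M : ℕ} {δ : ℝ} (hδ : 0 < δ) (hP : 1 ≤ P) (hM : M = N / P) (hN : 2 * P ≤ N)
    (hb : 2 * ((2 * P : ℕ) : ℝ) ^ δ ≤ (N : ℝ) ^ (δ / 2)) :
    (N : ℝ) ^ (δ / 2) ≤ (⌊(M : ℝ) ^ δ⌋₊ : ℝ) := by
  have hP0 : (0 : ℝ) < P := by exact_mod_cast hP
  have hN0 : (0 : ℝ) < N := by
    have : 0 < N := by omega
    exact_mod_cast this
  have h1 : N < P * (M + 1) := by
    rw [hM]; exact Nat.lt_mul_div_succ N (by omega)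
  have h1' : (N : ℝ) < P * (M + 1) := by exact_mod_cast h1
  have hN2 : (2 : ℝ) * P ≤ N := by exact_mod_cast hN
  have h2 : (N : ℝ) / (2 * P) ≤ M := by
    rw [div_le_iff₀ (by positivity)]
    nlinarith
  have h2P : (1 : ℝ) ≤ ((2 * P : ℕ) : ℝ) ^ δ := by
    apply Real.one_le_rpow _ hδ.le
    have : 1 ≤ 2 * P := by omega
    exact_mod_cast this
  have h3 : 2 * (N : ℝ) ^ (δ / 2) ≤ (M : ℝ) ^ δ := by
    calc 2 * (N : ℝ) ^ (δ / 2) ≤ ((N : ℝ) / (2 * P)) ^ δ := by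
          rw [Real.div_rpow hN0.le (by positivity)]
          have h4 : (N : ℝ) ^ δ = (N : ℝ) ^ (δ / 2) * (N : ℝ) ^ (δ / 2) := by
            rw [← Real.rpow_add hN0]; congr 1; ring
          have h5 : ((2 : ℝ) * P) ^ δ = ((2 * P : ℕ) : ℝ) ^ δ := by push_cast; rfl
          rw [h4, h5, le_div_iff₀ (by linarith)]
          nlinarith [Real.rpow_nonneg hN0.le (δ / 2)]
      _ ≤ (M : ℝ) ^ δ := Real.rpow_le_rpow (by positivity) h2 hδ.le
  have h6 := Nat.lt_floor_add_one ((M : ℝ) ^ δ)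
  have h7 : (1 : ℝ) ≤ (N : ℝ) ^ (δ / 2) := by linarith
  linarith

private lemma sum_union_le' (s t : Finset ℕ) (f : ℕ → ℝ) (hf : ∀ i, 0 ≤ f i) :
    ∑ i ∈ s ∪ t, f i ≤ ∑ i ∈ s, f i + ∑ i ∈ t, f i := by
  rw [← Finset.sum_union_inter]
  have : 0 ≤ ∑ i ∈ s ∩ t, f i := Finset.sum_nonneg fun i _ => hf i
  linarith

/-- the product over the primes of the class 2 -/
private lemma mu_le (hM : StMT) (h4 : StMR4) : ∃ C : ℝ, 0 < C ∧ ∀ p : ℕ, 3 ≤ p →
    ∏ q ∈ (Icc 1 p).filter (fun q => q.Prime ∧ q % 3 = 2), (1 - 1 / (q : ℝ)) ≤ C / √(Real.log p) := by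
  classical
  obtain ⟨A, hA, hA'⟩ := hM
  obtain ⟨A2, hA2, hA2'⟩ := h4
  refine ⟨Real.exp (A + A2 + 1), Real.exp_pos _, fun p hp => ?_⟩
  have hp' : (3 : ℝ) ≤ p := by exact_mod_cast hp
  have h1 := hA' p hp'
  have h2 := hA2' p hp'
  rw [Nat.floor_natCast] at h1 h2
  have hf : ∀ i : ℕ, (0 : ℝ) ≤ 1 / (i : ℝ) := fun i => by positivity
  have hsub : (Icc 1 p).filter Nat.Prime ⊆ ((Icc 1 p).filter (fun l => l.Prime ∧ l % 3 = 1) ∪
      (Icc 1 p).filter (fun l => l.Prime ∧ l % 3 = 2)) ∪ {3} := by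
    intro l hl
    obtain ⟨a, b⟩ := mem_filter.1 hl
    simp only [mem_union, mem_filter, mem_singleton]
    have : l % 3 = 0 ∨ l % 3 = 1 ∨ l % 3 = 2 := by omega
    rcases this with h | h | h
    · right
      exact ((Nat.prime_dvd_prime_iff_eq Nat.prime_three b).1 (Nat.dvd_of_mod_eq_zero h)).symm
    · left; left; exact ⟨a, b, h⟩
    · left; right; exact ⟨a, b, h⟩
  have h3 : ∑ l ∈ (Icc 1 p).filter Nat.Prime, (1 : ℝ) / l ≤
      (∑ l ∈ (Icc 1 p).filter (fun l => l.Prime ∧ l % 3 = 1), (1 : ℝ) / l +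
      ∑ l ∈ (Icc 1 p).filter (fun l => l.Prime ∧ l % 3 = 2), (1 : ℝ) / l) + 1 := by
    have e1 := Finset.sum_le_sum_of_subset_of_nonneg (f := fun l : ℕ => (1 : ℝ) / l) hsub (fun i _ _ => hf i)
    have e2 := sum_union_le' ((Icc 1 p).filter (fun l => l.Prime ∧ l % 3 = 1) ∪
      (Icc 1 p).filter (fun l => l.Prime ∧ l % 3 = 2)) {3} (fun l : ℕ => (1 : ℝ) / l) hf
    have e3 := sum_union_le' ((Icc 1 p).filter (fun l => l.Prime ∧ l % 3 = 1))
      ((Icc 1 p).filter (fun l => l.Prime ∧ l % 3 = 2)) (fun l : ℕ => (1 : ℝ) / l) hf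
    rw [Finset.sum_singleton] at e2
    have e4 : (1 : ℝ) / ((3 : ℕ) : ℝ) ≤ 1 := by norm_num
    linarith
  have h5 := (abs_le.1 h1).1
  have hlog : 0 < Real.log p := Real.log_pos (by linarith)
  have hprod : ∏ q ∈ (Icc 1 p).filter (fun q => q.Prime ∧ q % 3 = 2), (1 - 1 / (q : ℝ)) ≤
      Real.exp (-∑ q ∈ (Icc 1 p).filter (fun q => q.Prime ∧ q % 3 = 2), (1 : ℝ) / q) := by
    rw [← Finset.sum_neg_distrib, Real.exp_sum]
    refine Finset.prod_le_prod (fun q hq => ?_) (fun q _ => ?_)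
    · have h6 : 1 ≤ q := (mem_Icc.1 (mem_filter.1 hq).1).1
      have h7 : (1 : ℝ) ≤ q := by exact_mod_cast h6
      have h8 : (1 : ℝ) / q ≤ 1 := by
        rw [div_le_one (by linarith)]
        exact h7
      linarith
    · exact Real.one_sub_le_exp_neg _
  refine hprod.trans ?_
  have hs : √(Real.log p) = Real.exp (Real.log (Real.log p) / 2) := by
    rw [Real.exp_half, Real.exp_log hlog]
  rw [hs, ← Real.exp_sub]
  apply Real.exp_le_exp.2
  linarith

private lemma P3_le (p : ℕ) : P3 p ≤ 4 ^ p := by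
  refine le_trans ?_ (primorial_le_four_pow p)
  unfold P3 primorial
  refine Finset.prod_le_prod_of_subset_of_one_le' ?_ ?_
  · intro q hq
    obtain ⟨h1, h2, h3⟩ := mem_filter.1 hq
    rw [mem_Icc] at h1
    rw [mem_filter, mem_range]
    exact ⟨by omega, h2⟩
  · intro q hq _
    exact (mem_filter.1 hq).2.one_lt.le

private lemma P3_pos (p : ℕ) : 1 ≤ P3 p := by
  unfold P3
  exact Finset.one_le_prod' fun q hq => (mem_filter.1 hq).2.1.one_lt.le

private lemma P3_dvd {p q : ℕ} (hq : q.Prime) (h : q ∣ P3 p) : q ≤ p := by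
  unfold P3 at h
  obtain ⟨l, hl, hd⟩ := (hq.prime.dvd_finsetProd_iff _).1 h
  obtain ⟨h1, h2, h3⟩ := mem_filter.1 hl
  have := (Nat.prime_dvd_prime_iff_eq hq h2).1 hd
  rw [mem_Icc] at h1
  omega

private lemma form_ge {n k : ℕ} (h : 2 * k ≤ n) : n * n ≤ 4 * (k ^ 2 + k * (n - k) + (n - k) ^ 2) := by
  obtain ⟨d, rfl⟩ : ∃ d, n = k + d := ⟨n - k, by omega⟩
  rw [Nat.add_sub_cancel_left]
  nlinarith

private lemma form_cast {n k : ℕ} (h : k ≤ n) :
    ((k ^ 2 + k * (n - k) + (n - k) ^ 2 : ℕ) : ℤ) = fz n k := by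
  unfold fz
  push_cast [Nat.cast_sub h]
  ring

/-- the property -/
private def Gd (C : ℝ) (n : ℕ) : Prop := ∀ k : ℕ, 1 ≤ k → (k : ℝ) ≤ C * Real.log n →
      2 * k ≤ n ∧ ¬ (k ^ 2 + k * (n - k) + (n - k) ^ 2).Prime

open Classical in
private lemma count {C : ℝ} (hC : 1 ≤ C) {p w H N M : ℕ} (hM : M = N / P3 p) (hH : H = ⌊C * Real.log N⌋₊)
    (hw : 4 * w < N) (hp : 4 * p < N)
    (h2k : ∀ k n : ℕ, (k : ℝ) ≤ C * Real.log N → N ≤ n * n → 2 * k ≤ n) :
    M ≤ ((Icc 1 M).filter (fun m => Gd C (P3 p * m))).card + Nat.sqrt N +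
      ∑ k ∈ (Icc 1 H).filter (fun k => Nat.Coprime k (P3 p)),
        ((Icc 1 M).filter (fun m : ℕ => ∀ l ∈ Q1 w, ¬ (l : ℤ) ∣ fz ((P3 p : ℤ) * m) k)).card := by
  have hP := P3_pos p
  have hsub : Icc 1 M ⊆ (((Icc 1 M).filter (fun m => Gd C (P3 p * m))) ∪ Icc 1 (Nat.sqrt N)) ∪
      ((Icc 1 H).filter (fun k => Nat.Coprime k (P3 p))).biUnion (fun k =>
        (Icc 1 M).filter (fun m : ℕ => ∀ l ∈ Q1 w, ¬ (l : ℤ) ∣ fz ((P3 p : ℤ) * m) k)) := by
    intro m hm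
    have hm' := mem_Icc.1 hm
    rw [mem_union, mem_union]
    by_cases hg : Gd C (P3 p * m)
    · exact Or.inl (Or.inl (mem_filter.2 ⟨hm, hg⟩))
    by_cases hs : m ≤ Nat.sqrt N
    · exact Or.inl (Or.inr (mem_Icc.2 ⟨hm'.1, hs⟩))
    right
    obtain ⟨n, hn⟩ : ∃ n, n = P3 p * m := ⟨_, rfl⟩
    have hmn : m ≤ n := by
      rw [hn]
      exact Nat.le_mul_of_pos_left _ hP
    have hnn : N ≤ n * n := by
      have h1 : N < (Nat.sqrt N + 1) * (Nat.sqrt N + 1) := Nat.lt_succ_sqrt N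
      have h2 : (Nat.sqrt N + 1) * (Nat.sqrt N + 1) ≤ n * n := Nat.mul_le_mul (by omega) (by omega)
      omega
    have hnN : n ≤ N := by
      rw [hn]
      calc P3 p * m ≤ P3 p * (N / P3 p) := Nat.mul_le_mul_left _ (by omega)
        _ ≤ N := Nat.mul_div_le _ _
    have hn0 : 0 < n := by omega
    have hlog : Real.log n ≤ Real.log N :=
      Real.log_le_log (by exact_mod_cast hn0) (by exact_mod_cast hnN)
    rw [← hn] at hg
    unfold Gd at hg
    push Not at hg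
    obtain ⟨k, hk1, hk2, hk3⟩ := hg
    have hkN : (k : ℝ) ≤ C * Real.log N := hk2.trans (mul_le_mul_of_nonneg_left hlog (by linarith))
    have h2 := h2k k n hkN hnn
    have hpr := hk3 h2
    have hge := form_ge h2
    obtain ⟨f, hf⟩ : ∃ f, f = k ^ 2 + k * (n - k) + (n - k) ^ 2 := ⟨_, rfl⟩
    have hfz : (f : ℤ) = fz n k := by
      rw [hf]
      exact form_cast (by omega)
    rw [← hf] at hpr hge
    have hfp : p < f := by omega
    have hfw : w < f := by omega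
    rw [mem_biUnion]
    refine ⟨k, mem_filter.2 ⟨mem_Icc.2 ⟨hk1, ?_⟩, ?_⟩, mem_filter.2 ⟨hm, ?_⟩⟩
    · rw [hH]
      exact Nat.le_floor hkN
    · by_contra hcop
      obtain ⟨q, hq, hqk, hqP⟩ := Nat.Prime.not_coprime_iff_dvd.1 hcop
      have hqn : q ∣ n := by
        rw [hn]
        exact Dvd.dvd.mul_right hqP _
      have hqf : q ∣ f := by
        rw [hf]
        have h3 : q ∣ n - k := Nat.dvd_sub hqn hqk
        exact dvd_add (dvd_add (Dvd.dvd.pow hqk (by norm_num)) (Dvd.dvd.mul_right hqk _))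
          (Dvd.dvd.pow h3 (by norm_num))
      have h4 := (Nat.prime_dvd_prime_iff_eq hq hpr).1 hqf
      have h5 := P3_dvd hq hqP
      omega
    · intro l hl hd
      unfold Q1 at hl
      obtain ⟨h3, h4, h5⟩ := mem_filter.1 hl
      rw [mem_Ioc] at h3
      have e : ((P3 p : ℤ) * m) = ((n : ℕ) : ℤ) := by
        rw [hn]
        push_cast
        rfl
      rw [e, ← hfz] at hd
      have h6 : l ∣ f := by exact_mod_cast hd
      have h7 := (Nat.prime_dvd_prime_iff_eq h4 hpr).1 h6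
      omega
  have h1 := Finset.card_le_card hsub
  rw [Nat.card_Icc, Nat.add_sub_cancel] at h1
  refine h1.trans ((Finset.card_union_le _ _).trans ?_)
  refine Nat.add_le_add ((Finset.card_union_le _ _).trans ?_) Finset.card_biUnion_le
  rw [Nat.card_Icc, Nat.add_sub_cancel]

/-- Module NFI. -/
theorem hNFI (h1 : StNSV) (h2 : StNKP) (hM : StMT) (h4 : StMR4) : StNFI := by
  classical
  obtain ⟨C₁, hC₁, B, h1⟩ := h1
  obtain ⟨C₂, hC₂, h2⟩ := h2
  obtain ⟨C₅, hC₅, h5⟩ := mu_le hM h4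
  obtain ⟨t, ht⟩ : ∃ t : ℝ, t = 8 * (C₁ * C₂ * C₅ * (4 * B + 4)) + 2 := ⟨_, rfl⟩
  have hA0 : 0 < C₁ * C₂ * C₅ * (4 * (B : ℝ) + 4) := by positivity
  have ht2 : 2 ≤ t := by linarith
  refine ⟨t ^ 2 + 2, by positivity, fun C hC => ?_⟩
  have htC : 4 ≤ t ^ 2 * C ^ 2 := by
    have h3 : 4 ≤ t ^ 2 := by nlinarith
    have h6 : 1 ≤ C ^ 2 := by nlinarith
    nlinarith
  obtain ⟨p, hp⟩ : ∃ p : ℕ, p = ⌈Real.exp (t ^ 2 * C ^ 2)⌉₊ := ⟨_, rfl⟩
  have hpe : Real.exp (t ^ 2 * C ^ 2) ≤ p := by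
    rw [hp]
    exact Nat.le_ceil _
  have hpe2 : (p : ℝ) < Real.exp (t ^ 2 * C ^ 2) + 1 := by
    rw [hp]
    exact Nat.ceil_lt_add_one (Real.exp_pos _).le
  have hexp5 : 5 ≤ Real.exp (t ^ 2 * C ^ 2) := by
    have := Real.add_one_le_exp (t ^ 2 * C ^ 2)
    linarith
  have hp3 : 3 ≤ p := by
    have : (3 : ℝ) ≤ p := by linarith
    exact_mod_cast this
  have hμ := h5 p hp3
  obtain ⟨μ, hμe⟩ : ∃ μ : ℝ, μ = ∏ q ∈ (Icc 1 p).filter (fun q => q.Prime ∧ q % 3 = 2), (1 - 1 / (q : ℝ)) :=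
    ⟨_, rfl⟩
  rw [← hμe] at hμ
  have hsq : t * C ≤ √(Real.log p) := by
    apply Real.le_sqrt_of_sq_le
    rw [Real.le_log_iff_exp_le (by linarith), mul_pow]
    exact hpe
  have htC0 : 0 < t * C := by positivity
  have hμ2 : μ ≤ C₅ / (t * C) := hμ.trans (div_le_div_of_nonneg_left hC₅.le htC0 hsq)
  obtain ⟨K₀, hK₀⟩ := h2 p
  have hP := P3_pos p
  obtain ⟨P, hPe⟩ : ∃ P : ℕ, P = P3 p := ⟨_, rfl⟩
  rw [← hPe] at hP
  have hP1 : (1 : ℝ) ≤ P := by exact_mod_cast hP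
  obtain ⟨δ, hδe⟩ : ∃ δ : ℝ, δ = 1 / (2 * B + 2) := ⟨_, rfl⟩
  have hδ : 0 < δ := by
    rw [hδe]
    positivity
  have hcast : Tendsto (fun N : ℕ => (N : ℝ)) atTop atTop := tendsto_natCast_atTop_atTop
  have hev : ∀ᶠ N : ℕ in atTop, 2 * (8 * (P : ℝ)) * (C * Real.log N + 2) ≤ (N : ℝ) ^ (1 / 2 : ℝ) ∧
      2 * ((2 * P : ℕ) : ℝ) ^ δ ≤ (N : ℝ) ^ (δ / 2) ∧ (3 : ℝ) ≤ (N : ℝ) ^ (δ / 2) ∧ (K₀ : ℝ) ≤ Real.log N ∧
      ((4 * p + 1 : ℕ) : ℝ) ≤ N := by
    have hr := (tendsto_rpow_atTop (by positivity : 0 < δ / 2)).comp hcast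
    exact ((hcast.eventually (ev_real (8 * (P : ℝ)) C)).and ((hr.eventually_ge_atTop _).and
      ((hr.eventually_ge_atTop _).and (((Real.tendsto_log_atTop.comp hcast).eventually_ge_atTop _).and
        (hcast.eventually_ge_atTop _)))))
  obtain ⟨N₀, hN₀⟩ := eventually_atTop.1 hev
  refine ⟨N₀, fun N hN => ?_⟩
  obtain ⟨e1, e2, e3, e4, e5⟩ := hN₀ N hN
  have e5' : 4 * p < N := by
    have : 4 * p + 1 ≤ N := by exact_mod_cast e5
    omega
  have hN1 : (1 : ℝ) ≤ N := by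
    have : 1 ≤ N := by omega
    exact_mod_cast this
  have hlogN : 0 ≤ Real.log N := Real.log_nonneg hN1
  rw [← Real.sqrt_eq_rpow] at e1
  have hCl : 0 ≤ C * Real.log N := by positivity
  have hPL : 0 ≤ (P : ℝ) * (C * Real.log N) := by positivity
  have hPL1 : C * Real.log N ≤ (P : ℝ) * (C * Real.log N) := le_mul_of_one_le_left hCl hP1
  have e1' : 16 * ((P : ℝ) * (C * Real.log N)) + 32 * P ≤ √(N : ℝ) := by
    have : 2 * (8 * (P : ℝ)) * (C * Real.log N + 2) = 16 * ((P : ℝ) * (C * Real.log N)) + 32 * P := by ring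
    linarith
  have hs32 : 32 * (P : ℝ) ≤ √(N : ℝ) := by linarith
  have hsN : √(N : ℝ) * √(N : ℝ) = N := Real.mul_self_sqrt (by linarith)
  have hs0 : 0 ≤ √(N : ℝ) := Real.sqrt_nonneg _
  have h32N : 32 * (P : ℝ) * √(N : ℝ) ≤ N := by
    calc 32 * (P : ℝ) * √(N : ℝ) ≤ √(N : ℝ) * √(N : ℝ) := mul_le_mul_of_nonneg_right hs32 hs0
      _ = N := hsN
  have h32N' : 32 * √(N : ℝ) ≤ N := by
    have h3 : 32 * √(N : ℝ) ≤ 32 * (P : ℝ) * √(N : ℝ) := mul_le_mul_of_nonneg_right (by linarith) hs0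
    linarith
  have hNP : 2 * P ≤ N := by
    have : 2 * (P : ℝ) ≤ N := by linarith
    exact_mod_cast this
  obtain ⟨M, hMe⟩ : ∃ M : ℕ, M = N / P := ⟨_, rfl⟩
  obtain ⟨w, hwe⟩ : ∃ w : ℕ, w = ⌊(M : ℝ) ^ δ⌋₊ := ⟨_, rfl⟩
  obtain ⟨H, hHe⟩ : ∃ H : ℕ, H = ⌊C * Real.log N⌋₊ := ⟨_, rfl⟩
  have hwb := w_big (M := M) hδ hP hMe hNP e2
  rw [← hwe] at hwb
  have hw3 : 3 ≤ w := by
    have : (3 : ℝ) ≤ w := e3.trans hwb
    exact_mod_cast this
  have hM1 : 1 ≤ M := by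
    rw [hMe, Nat.le_div_iff_mul_le (by omega)]
    omega
  have hM1' : (1 : ℝ) ≤ M := by exact_mod_cast hM1
  have hMN : (M : ℝ) ≤ N := by
    rw [hMe]
    exact_mod_cast Nat.div_le_self N P
  have hNM : (N : ℝ) ≤ 2 * P * M := by
    have h3 : N < P * (M + 1) := by
      rw [hMe]; exact Nat.lt_mul_div_succ N (by omega)
    have h6 : (N : ℝ) < P * (M + 1) := by exact_mod_cast h3
    have h7 : (P : ℝ) * (M + 1) ≤ P * (2 * M) := mul_le_mul_of_nonneg_left (by linarith) (by linarith)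
    linarith
  -- powers of `w`
  have hwM : (w : ℝ) ^ (2 * B + 2) ≤ M := by
    have h3 : (w : ℝ) ≤ (M : ℝ) ^ δ := by
      rw [hwe]
      exact Nat.floor_le (by positivity)
    calc (w : ℝ) ^ (2 * B + 2) ≤ ((M : ℝ) ^ δ) ^ (2 * B + 2) := pow_le_pow_left₀ (by positivity) h3 _
      _ = M := by
          rw [← Real.rpow_natCast, ← Real.rpow_mul (by linarith), hδe]
          have : (1 / (2 * (B : ℝ) + 2)) * ((2 * B + 2 : ℕ) : ℝ) = 1 := by
            push_cast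
            field_simp
          rw [this, Real.rpow_one]
  have hw1 : (1 : ℝ) ≤ w := by
    have : 1 ≤ w := by omega
    exact_mod_cast this
  have hw2 : (w : ℝ) ^ 2 ≤ M := (pow_le_pow_right₀ hw1 (by omega)).trans hwM
  have hwB2 : ((w : ℝ) ^ B) ^ 2 ≤ M := by
    rw [← pow_mul]
    exact (pow_le_pow_right₀ hw1 (by omega)).trans hwM
  have hwB : (w : ℝ) ^ B ≤ √(M : ℝ) := Real.le_sqrt_of_sq_le hwB2
  have hwN : (w : ℝ) ≤ √(N : ℝ) := Real.le_sqrt_of_sq_le (hw2.trans hMN)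
  have hw4 : 4 * w < N := by
    have : 4 * (w : ℝ) < N := by linarith
    exact_mod_cast this
  have hcount := count hC (M := M) (by rw [hMe, hPe]) hHe hw4 e5' (by
    intro k n hk hn
    have hn' : (N : ℝ) ≤ (n : ℝ) * n := by exact_mod_cast hn
    have h3 : √(N : ℝ) ≤ n := by
      rw [Real.sqrt_le_iff]
      exact ⟨by positivity, by rw [pow_two]; exact hn'⟩
    have h6 : 2 * (k : ℝ) ≤ n := by linarith
    exact_mod_cast h6)
  -- the sum
  have hH : (H : ℝ) ≤ C * Real.log N := by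
    rw [hHe]
    exact Nat.floor_le hCl
  have hHK : K₀ ≤ H := by
    rw [hHe]
    exact Nat.le_floor (e4.trans (le_mul_of_one_le_left hlogN hC))
  have hlogw : (δ / 2) * Real.log N ≤ Real.log w := by
    rw [← Real.log_rpow (by linarith)]
    exact Real.log_le_log (by positivity) hwb
  have hlogw0 : 0 < Real.log w := Real.log_pos (by linarith [(by exact_mod_cast hw3 : (3 : ℝ) ≤ w)])
  have hlogN0 : 0 < Real.log N := by
    apply Real.log_pos
    have : 1 < N := by omega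
    exact_mod_cast this
  have hSum : ∑ k ∈ (Icc 1 H).filter (fun k => Nat.Coprime k (P3 p)),
        (((Icc 1 M).filter (fun m : ℕ => ∀ l ∈ Q1 w, ¬ (l : ℤ) ∣ fz ((P3 p : ℤ) * m) k)).card : ℝ) ≤
      C₁ * (M / Real.log w * (C₂ * (H * μ))) + H * (w : ℝ) ^ B := by
    calc _ ≤ ∑ k ∈ (Icc 1 H).filter (fun k => Nat.Coprime k (P3 p)),
          (C₁ * (M / Real.log w * ∏ l ∈ (Q1 w).filter (fun l => l ∣ k), (1 + 8 / (l : ℝ))) + (w : ℝ) ^ B) :=
          Finset.sum_le_sum fun k _ => h1 p w k M hw3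
      _ = C₁ * (M / Real.log w * ∑ k ∈ (Icc 1 H).filter (fun k => Nat.Coprime k (P3 p)),
            ∏ l ∈ (Q1 w).filter (fun l => l ∣ k), (1 + 8 / (l : ℝ))) +
            (((Icc 1 H).filter (fun k => Nat.Coprime k (P3 p))).card : ℝ) * (w : ℝ) ^ B := by
          rw [Finset.sum_add_distrib, ← Finset.mul_sum, ← Finset.mul_sum, Finset.sum_const, nsmul_eq_mul]
      _ ≤ _ := by
          have h3 := hK₀ H w hHK
          rw [← hμe] at h3
          have h6 : (((Icc 1 H).filter (fun k => Nat.Coprime k (P3 p))).card : ℝ) ≤ H := by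
            have h7 := Finset.card_filter_le (Icc 1 H) (fun k => Nat.Coprime k (P3 p))
            rw [Nat.card_Icc, Nat.add_sub_cancel] at h7
            exact_mod_cast h7
          have h8 : 0 ≤ (M : ℝ) / Real.log w := by positivity
          have h9 : 0 ≤ (w : ℝ) ^ B := by positivity
          exact add_le_add (mul_le_mul_of_nonneg_left (mul_le_mul_of_nonneg_left h3 h8) hC₁.le)
            (mul_le_mul_of_nonneg_right h6 h9)
  have hT1 : C₁ * (M / Real.log w * (C₂ * (H * μ))) ≤ M / 8 := by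
    have h3 : (H : ℝ) / Real.log w ≤ C * (4 * B + 4) := by
      rw [div_le_iff₀ hlogw0]
      have h6 : (4 * (B : ℝ) + 4) * ((δ / 2) * Real.log N) = Real.log N := by
        rw [hδe]
        field_simp
        ring
      calc (H : ℝ) ≤ C * Real.log N := hH
        _ = C * (4 * B + 4) * ((δ / 2) * Real.log N) := by rw [mul_assoc C, h6]
        _ ≤ C * (4 * B + 4) * Real.log w := mul_le_mul_of_nonneg_left hlogw (by positivity)
    have h6 : C₁ * (M / Real.log w * (C₂ * (H * μ))) = (C₁ * C₂ * M) * ((H / Real.log w) * μ) := by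
      field_simp
    have h7 : (H / Real.log w) * μ ≤ (C * (4 * B + 4)) * (C₅ / (t * C)) := by
      have h8 : 0 ≤ (H : ℝ) / Real.log w := by positivity
      exact (mul_le_mul_of_nonneg_left hμ2 h8).trans (mul_le_mul_of_nonneg_right h3 (by positivity))
    rw [h6]
    calc (C₁ * C₂ * M) * ((H / Real.log w) * μ) ≤ (C₁ * C₂ * M) * ((C * (4 * B + 4)) * (C₅ / (t * C))) :=
          mul_le_mul_of_nonneg_left h7 (by positivity)
      _ = (C₁ * C₂ * C₅ * (4 * B + 4)) / t * M := by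
          field_simp
      _ ≤ 1 / 8 * M := by
          apply mul_le_mul_of_nonneg_right _ (by linarith)
          rw [div_le_iff₀ (by linarith)]
          linarith
      _ = M / 8 := by ring
  have hT2 : (H : ℝ) * (w : ℝ) ^ B ≤ M / 8 := by
    have h3 : 8 * (C * Real.log N) ≤ √(M : ℝ) := by
      apply Real.le_sqrt_of_sq_le
      have h6 : (16 * (P : ℝ) * (C * Real.log N)) ^ 2 ≤ N := by
        have h7 : 16 * (P : ℝ) * (C * Real.log N) ≤ √(N : ℝ) := by linarith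
        calc (16 * (P : ℝ) * (C * Real.log N)) ^ 2 ≤ √(N : ℝ) ^ 2 := pow_le_pow_left₀ (by positivity) h7 _
          _ = N := by rw [pow_two]; exact hsN
      have h8 : (16 * (P : ℝ) * (C * Real.log N)) ^ 2 = 2 * P * (128 * P * (C * Real.log N) ^ 2) := by ring
      have h9 : 2 * (P : ℝ) * (128 * P * (C * Real.log N) ^ 2) ≤ 2 * P * M := by linarith
      have h10 : 128 * (P : ℝ) * (C * Real.log N) ^ 2 ≤ M := le_of_mul_le_mul_left h9 (by positivity)
      have h11 : 0 ≤ (C * Real.log N) ^ 2 := sq_nonneg _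
      have h12 : (C * Real.log N) ^ 2 ≤ P * (C * Real.log N) ^ 2 := le_mul_of_one_le_left h11 hP1
      have h13 : (8 * (C * Real.log N)) ^ 2 = 64 * (C * Real.log N) ^ 2 := by ring
      rw [h13]
      linarith
    have hsM : √(M : ℝ) * √(M : ℝ) = M := Real.mul_self_sqrt (by linarith)
    have hH0 : (0 : ℝ) ≤ H := by positivity
    calc (H : ℝ) * (w : ℝ) ^ B ≤ (√(M : ℝ) / 8) * √(M : ℝ) :=
          mul_le_mul (by linarith) hwB (by positivity) (by positivity)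
      _ = M / 8 := by
          rw [div_mul_eq_mul_div, hsM]
  have hsq4 : (Nat.sqrt N : ℝ) ≤ M / 4 := by
    have h3 : (Nat.sqrt N : ℝ) ≤ √(N : ℝ) := Real.nat_sqrt_le_real_sqrt
    have h6 : 2 * (P : ℝ) * (4 * √(N : ℝ)) ≤ 2 * P * M := by
      have h7 : 0 ≤ (P : ℝ) * √(N : ℝ) := by positivity
      linarith
    have h7 : 4 * √(N : ℝ) ≤ M := le_of_mul_le_mul_left h6 (by positivity)
    linarith
  have hgood : (M : ℝ) / 2 ≤ (((Icc 1 M).filter (fun m => Gd C (P3 p * m))).card : ℝ) := by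
    have h3 : (M : ℝ) ≤ (((Icc 1 M).filter (fun m => Gd C (P3 p * m))).card : ℝ) + (Nat.sqrt N : ℝ) +
        ∑ k ∈ (Icc 1 H).filter (fun k => Nat.Coprime k (P3 p)),
        (((Icc 1 M).filter (fun m : ℕ => ∀ l ∈ Q1 w, ¬ (l : ℤ) ∣ fz ((P3 p : ℤ) * m) k)).card : ℝ) := by
      exact_mod_cast hcount
    linarith
  have hinj : ((Icc 1 M).filter (fun m => Gd C (P3 p * m))).card ≤
      ((Icc 1 N).filter (fun n : ℕ => ∀ k : ℕ, 1 ≤ k → (k : ℝ) ≤ C * Real.log n →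
      2 * k ≤ n ∧ ¬ (k ^ 2 + k * (n - k) + (n - k) ^ 2).Prime)).card := by
    refine Finset.card_le_card_of_injOn (fun m => P3 p * m) ?_ ?_
    · intro m hm
      have hm' := mem_filter.1 (Finset.mem_coe.1 hm)
      have hm1 := mem_Icc.1 hm'.1
      refine Finset.mem_coe.2 (mem_filter.2 ⟨mem_Icc.2 ⟨?_, ?_⟩, hm'.2⟩)
      · have : 0 < P3 p * m := Nat.mul_pos (P3_pos p) (by omega)
        exact this
      · calc P3 p * m ≤ P3 p * M := Nat.mul_le_mul_left _ hm1.2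
          _ = P3 p * (N / P3 p) := by rw [hMe, hPe]
          _ ≤ N := Nat.mul_div_le _ _
    · intro a _ b _ hab
      exact Nat.eq_of_mul_eq_mul_left (P3_pos p) hab
  have hinj' : (((Icc 1 M).filter (fun m => Gd C (P3 p * m))).card : ℝ) ≤
      (((Icc 1 N).filter (fun n : ℕ => ∀ k : ℕ, 1 ≤ k → (k : ℝ) ≤ C * Real.log n →
      2 * k ≤ n ∧ ¬ (k ^ 2 + k * (n - k) + (n - k) ^ 2).Prime)).card : ℝ) := by
    exact_mod_cast hinj
  -- the constant
  have hP4 : 4 * (P : ℝ) ≤ Real.exp (Real.exp ((t ^ 2 + 2) * C ^ 2)) := by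
    have h3 : (P : ℝ) ≤ 4 ^ p := by
      rw [hPe]
      exact_mod_cast P3_le p
    have h6 : (4 : ℝ) ≤ Real.exp 2 := by
      have h7 : Real.exp 2 = Real.exp 1 * Real.exp 1 := by
        rw [← Real.exp_add]
        norm_num
      have h8 : (2 : ℝ) ≤ Real.exp 1 := by linarith [Real.exp_one_gt_d9]
      rw [h7]
      calc (4 : ℝ) = 2 * 2 := by norm_num
        _ ≤ Real.exp 1 * Real.exp 1 := mul_le_mul h8 h8 (by norm_num) (by linarith)
    calc 4 * (P : ℝ) ≤ 4 * 4 ^ p := by linarith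
      _ = 4 ^ (p + 1) := by ring
      _ ≤ (Real.exp 2) ^ (p + 1) := pow_le_pow_left₀ (by norm_num) h6 _
      _ = Real.exp (((p + 1 : ℕ) : ℝ) * 2) := by rw [Real.exp_nat_mul]
      _ ≤ _ := by
          apply Real.exp_le_exp.2
          have h7 : Real.exp ((t ^ 2 + 2) * C ^ 2) = Real.exp (t ^ 2 * C ^ 2) * Real.exp (2 * C ^ 2) := by
            rw [← Real.exp_add]
            congr 1
            ring
          have h9 : 1 ≤ C ^ 2 := one_le_pow₀ hC
          have h8 : 4 ≤ Real.exp (2 * C ^ 2) := h6.trans (Real.exp_le_exp.2 (by linarith))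
          have h10 : Real.exp (t ^ 2 * C ^ 2) * 4 ≤ Real.exp (t ^ 2 * C ^ 2) * Real.exp (2 * C ^ 2) :=
            mul_le_mul_of_nonneg_left h8 (Real.exp_pos _).le
          rw [h7]
          push_cast
          linarith
  have hfin : Real.exp (-Real.exp ((t ^ 2 + 2) * C ^ 2)) * N ≤ M / 2 := by
    rw [Real.exp_neg, inv_mul_le_iff₀ (Real.exp_pos _)]
    have h3 : 4 * (P : ℝ) * (M / 2) ≤ Real.exp (Real.exp ((t ^ 2 + 2) * C ^ 2)) * (M / 2) :=
      mul_le_mul_of_nonneg_right hP4 (by positivity)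
    linarith
  exact hfin.trans (hgood.trans hinj')

end Pool.Agent.Helper22.LM
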